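import Mathlib

/-!
Second moments.
-/

set_option autoImplicit false

open MeasureTheory Filter Topology Set

namespace Pool.Agent.Helper932Y

/-- the second moment method -/
lemma second_moment {ι : Type*} (s : Finset ι) {c d c0 C D : ℝ} (hcd : c < d) (hc0 : 0 < c0) (hC : 0 < C)
    {Z K : ι → ℝ → ℝ} (hs : s.Nonempty) (mZ : ∀ i, Measurable (Z i)) (cK : ∀ i, Continuous (K i))
    (h0 : ∀ i y, 0 ≤ Z i y) (hZK : ∀ i y, Z i y ≤ K i y)
    (h1 : ∀ i ∈ s, c0 * (d - c) ≤ ∫ y in Icc c d, Z i y)
    (h2 : ∀ i ∈ s, ∀ j ∈ s, i ≠ j → ∫ y in Icc c d, K i y * K j y ≤ C * (d - c))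
    (h3 : ∀ i ∈ s, ∀ y, Z i y ≤ D) (h4 : ∀ i ∈ s, ∫ y in Icc c d, K i y ≤ C * (d - c))
    (hD : D ≤ s.card) (hD0 : 0 ≤ D) :
    c0 ^ 2 / (8 * C) * (d - c) ≤ volume.real (Icc c d ∩ {y | c0 / 2 * s.card ≤ ∑ i ∈ s, Z i y}) := by
  classical
  have hdc : 0 < d - c := by linarith
  set M : ℝ := (s.card : ℝ) with hM
  have hM1 : 1 ≤ M := by rw [hM]; exact_mod_cast hs.card_pos
  set W : ℝ → ℝ := fun y => ∑ i ∈ s, Z i y with hW
  have mW : Measurable W := Finset.measurable_fun_sum _ fun i _ => mZ i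
  have hW0 : ∀ y, 0 ≤ W y := fun y => Finset.sum_nonneg fun i _ => h0 i y
  set U : Set ℝ := {y | c0 / 2 * M ≤ W y} with hU
  have mU : MeasurableSet U := measurableSet_le measurable_const mW
  have iK : ∀ i, IntegrableOn (K i) (Icc c d) := fun i => (cK i).integrableOn_Icc
  have iKK : ∀ i j, IntegrableOn (fun y => K i y * K j y) (Icc c d) := fun i j =>
    ((cK i).mul (cK j)).integrableOn_Icc
  have iZ : ∀ i, IntegrableOn (Z i) (Icc c d) := fun i =>
    (iK i).mono' (mZ i).aestronglyMeasurable (Eventually.of_forall fun y => by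
      rw [Real.norm_eq_abs, abs_of_nonneg (h0 i y)]; exact hZK i y)
  have iZZ : ∀ i j, IntegrableOn (fun y => Z i y * Z j y) (Icc c d) := fun i j =>
    (iKK i j).mono' ((mZ i).mul (mZ j)).aestronglyMeasurable (Eventually.of_forall fun y => by
      rw [Real.norm_eq_abs, abs_of_nonneg (mul_nonneg (h0 i y) (h0 j y))]
      exact mul_le_mul (hZK i y) (hZK j y) (h0 j y) ((h0 i y).trans (hZK i y)))
  have iW : IntegrableOn W (Icc c d) := integrable_finsetSum _ fun i _ => iZ i
  have eW2 : ∀ y, W y ^ 2 = ∑ i ∈ s, ∑ j ∈ s, Z i y * Z j y := by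
    intro y; simp only [hW]; rw [sq, Finset.sum_mul_sum]
  have iW2 : IntegrableOn (fun y => W y ^ 2) (Icc c d) := by
    simp_rw [eW2]
    exact integrable_finsetSum _ fun i _ => integrable_finsetSum _ fun j _ => iZZ i j
  have eA : ∫ y in Icc c d, W y = ∑ i ∈ s, ∫ y in Icc c d, Z i y :=
    integral_finsetSum _ fun i _ => iZ i
  have hA : c0 * (d - c) * M ≤ ∫ y in Icc c d, W y := by
    rw [eA]
    calc c0 * (d - c) * M = ∑ _i ∈ s, c0 * (d - c) := by rw [Finset.sum_const, nsmul_eq_mul, mul_comm]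
      _ ≤ _ := Finset.sum_le_sum h1
  have hQ : ∫ y in Icc c d, W y ^ 2 ≤ 2 * C * (d - c) * M ^ 2 := by
    simp_rw [eW2]
    rw [integral_finsetSum _ fun i _ => integrable_finsetSum _ fun j _ => iZZ i j]
    have h5 : ∀ i ∈ s, ∫ y in Icc c d, ∑ j ∈ s, Z i y * Z j y ≤ 2 * C * (d - c) * M := by
      intro i hi
      rw [integral_finsetSum _ fun j _ => iZZ i j, ← Finset.add_sum_erase _ _ hi]
      have h6 : ∫ y in Icc c d, Z i y * Z i y ≤ C * (d - c) * M := by
        have h7 : ∫ y in Icc c d, Z i y * Z i y ≤ ∫ y in Icc c d, D * K i y := by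
          refine setIntegral_mono (iZZ i i) ((iK i).const_mul D) fun y => ?_
          exact mul_le_mul (h3 i hi y) (hZK i y) (h0 i y) hD0
        rw [integral_const_mul] at h7
        have h8 : D * ∫ y in Icc c d, K i y ≤ M * (C * (d - c)) := by
          refine mul_le_mul hD (h4 i hi) ?_ (by linarith)
          exact integral_nonneg fun y => (h0 i y).trans (hZK i y)
        linarith
      have h9 : ∑ j ∈ s.erase i, ∫ y in Icc c d, Z i y * Z j y ≤ C * (d - c) * M := by
        calc ∑ j ∈ s.erase i, ∫ y in Icc c d, Z i y * Z j y ≤ ∑ _j ∈ s.erase i, C * (d - c) := by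
              refine Finset.sum_le_sum fun j hj => ?_
              rw [Finset.mem_erase] at hj
              refine le_trans ?_ (h2 i hi j hj.2 (Ne.symm hj.1))
              refine setIntegral_mono (iZZ i j) (iKK i j) fun y => ?_
              exact mul_le_mul (hZK i y) (hZK j y) (h0 j y) ((h0 i y).trans (hZK i y))
          _ = ((s.erase i).card : ℝ) * (C * (d - c)) := by rw [Finset.sum_const, nsmul_eq_mul]
          _ ≤ M * (C * (d - c)) := by
              refine mul_le_mul_of_nonneg_right ?_ (by positivity)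
              rw [hM]; exact_mod_cast Finset.card_erase_le
          _ = _ := by ring
      linarith
    calc ∑ i ∈ s, ∫ y in Icc c d, ∑ j ∈ s, Z i y * Z j y ≤ ∑ _i ∈ s, 2 * C * (d - c) * M := Finset.sum_le_sum h5
      _ = M * (2 * C * (d - c) * M) := by rw [Finset.sum_const, nsmul_eq_mul]
      _ = _ := by ring
  set A : ℝ := c0 * (d - c) * M with hAd
  set Q : ℝ := 2 * C * (d - c) * M ^ 2 with hQd
  have hA0 : 0 < A := by positivity
  have hQ0 : 0 < Q := by positivity
  set lam : ℝ := 2 * Q / A with hlam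
  have hlam0 : 0 < lam := by positivity
  have hpt : ∀ y, W y ≤ U.indicator (fun _ => lam / 2) y + 1 / (2 * lam) * W y ^ 2 + c0 / 2 * M := by
    intro y
    have hM0 : 0 ≤ c0 / 2 * M := by positivity
    by_cases hy : y ∈ U
    · rw [indicator_of_mem hy]
      have h5 : 0 ≤ (W y - lam) ^ 2 / (2 * lam) := by positivity
      have h6 : (W y - lam) ^ 2 / (2 * lam) = lam / 2 + 1 / (2 * lam) * W y ^ 2 - W y := by
        field_simp; ring
      linarith
    · rw [indicator_of_notMem hy]
      have h5 : W y < c0 / 2 * M := not_le.mp hy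
      have h6 : 0 ≤ 1 / (2 * lam) * W y ^ 2 := by positivity
      linarith
  have iU : IntegrableOn (U.indicator fun _ => lam / 2) (Icc c d) :=
    (integrableOn_const (by rw [Real.volume_Icc]; exact ENNReal.ofReal_ne_top)).indicator mU
  have iM : IntegrableOn (fun _ : ℝ => c0 / 2 * M) (Icc c d) :=
    integrableOn_const (by rw [Real.volume_Icc]; exact ENNReal.ofReal_ne_top)
  have hint : ∫ y in Icc c d, W y ≤ lam / 2 * volume.real (Icc c d ∩ U) + 1 / (2 * lam) * Q + A / 2 := by
    calc ∫ y in Icc c d, W y ≤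
          ∫ y in Icc c d, (U.indicator (fun _ => lam / 2) y + 1 / (2 * lam) * W y ^ 2 + c0 / 2 * M) :=
          setIntegral_mono iW ((iU.add (iW2.const_mul _)).add iM) hpt
      _ = lam / 2 * volume.real (Icc c d ∩ U) + 1 / (2 * lam) * (∫ y in Icc c d, W y ^ 2) + A / 2 := by
          have e3 : ∫ y in Icc c d, (U.indicator (fun _ => lam / 2) y + 1 / (2 * lam) * W y ^ 2 + c0 / 2 * M) =
              (∫ y in Icc c d, (U.indicator (fun _ => lam / 2) y + 1 / (2 * lam) * W y ^ 2)) +
                ∫ _y in Icc c d, c0 / 2 * M := integral_add (iU.add (iW2.const_mul _)) iM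
          rw [e3, integral_add iU (iW2.const_mul _), integral_const_mul,
            setIntegral_indicator mU, setIntegral_const, setIntegral_const, smul_eq_mul, smul_eq_mul,
            Real.volume_real_Icc_of_le hcd.le, hAd]
          ring
      _ ≤ _ := by
          have : 0 ≤ 1 / (2 * lam) := by positivity
          have := mul_le_mul_of_nonneg_left hQ this
          linarith
  have h7 : A ≤ lam / 2 * volume.real (Icc c d ∩ U) + 1 / (2 * lam) * Q + A / 2 := hA.trans hint
  have e8 : 1 / (2 * lam) * Q = A / 4 := by rw [hlam]; field_simp; ring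
  rw [e8] at h7
  have h9 : A / (2 * lam) ≤ volume.real (Icc c d ∩ U) := by
    rw [div_le_iff₀ (by positivity)]; linarith
  refine le_trans (le_of_eq ?_) h9
  rw [hlam, hAd, hQd]
  field_simp
  ring

end Pool.Agent.Helper932Y
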