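import Pool.Agent.Helper932Y.Key
import Pool.Agent.Helper932Y.SM
import Pool.Agent.Helper932Z.Block

/-!
One block of the sequence: the level is attained as often as expected, with positive probability.
-/

set_option autoImplicit false

namespace Pool.Agent.Helper932Y

open Filter Topology MeasureTheory
open Pool.Agent.TH806 Pool.Agent.TH806.LS
open Pool.Agent.Helper932Z (EP C2 C2_pos corr1 corr2 shift_int small_ev EP.scale)

lemma C2_bd {c d b κ : ℝ} (hcd : c ≤ d) (hb : 0 ≤ b) (hκ : 0 ≤ κ) :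
    (2 * C2 c d (Real.exp (-(κ * b))) + 2 + (d - c)) ≤ (14 + 9 * (d - c)) * Real.exp (κ * b) := by
  have hdc : 0 ≤ d - c := by linarith
  have h1 : 1 ≤ Real.exp (κ * b) := Real.one_le_exp (mul_nonneg hκ hb)
  unfold C2
  rw [Real.exp_neg, div_inv_eq_mul, div_inv_eq_mul]
  nlinarith

theorem block {a b : ℕ → ℝ} {B p q : ℝ} (hB1 : 1 ≤ B) (ha1 : ∀ n, 1 ≤ a n) (hmono : StrictMono a)
    (hgap : ∀ η : ℝ, 0 < η → ∀ᶠ n in atTop, a n + Real.exp (-(η * a n)) ≤ a (n + 1)) (hb : ∀ n, 0 < b n) (hba : Tendsto (fun n => Real.log (b n) / a n) atTop (𝓝 0)) (hp : 0 < p) (hpq : p < q)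
    (hq : q ≤ 21 / 20 * p) :
    ∃ κ C W c₂ : ℝ, 0 < κ ∧ 0 < C ∧ 0 < W ∧ 0 < c₂ ∧ ∀ σ : ℝ, (σ = 1 ∨ σ = -1) → ∀ k : ℝ, |k| ≤ B →
      ∃ S : ℕ → Set ℝ,
      (∀ n, MeasurableSet (S n)) ∧
      (∀ n, ∀ t ∈ S n, 0 < σ * Zr t ∧ 0 < Xz t ∧ |Real.log (Xz t) - k * Real.log (a n)| ≤ √(Real.log (a n)) + W) ∧
      ∀ c d : ℝ, p ≤ c → c < d → d ≤ q → ∃ A₁ : ℝ, ∀ A : ℝ, A₁ ≤ A → ∀ s : Finset ℕ,
        (∀ n ∈ s, A ≤ a n ∧ a n ≤ 2 * A) → s.Nonempty →
        C * Real.exp (k ^ 2 * Real.log (2 * A) + 2 * B * √(Real.log (2 * A))) ≤ s.card →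
        κ * (d - c) ≤ volume.real (Set.Icc c d ∩ {y | c₂ * s.card ≤
          Real.exp (k ^ 2 * Real.log (2 * A) + 2 * B * √(Real.log (2 * A))) *
            ∑ n ∈ s, (S n).indicator (fun _ => (1:ℝ)) (b n * Real.exp (a n * y))}) := by
  have hθ : 0 < p / 100 := by positivity
  obtain ⟨c0, C, W, A₀, hc0, hC, hW, hkey⟩ := key (B := B) (p := 99 / 100 * p) (q := q + p / 100) (θ := p / 100)
    hB1 (by positivity) (by linarith) (by linarith) hθ
  refine ⟨c0 ^ 2 / (8 * (C + 1) ^ 2), C, W, c0 / 2 / C, by positivity, hC, hW, by positivity, fun σ hσ k hk => ?_⟩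
  have hkey := hkey σ hσ k hk
  have hB0 : 0 < B := by linarith
  -- the gaps
  obtain ⟨n₁, hn₁⟩ := eventually_atTop.mp (hgap (p / 16) (by positivity))
  have hgap2 : ∀ m n : ℕ, n₁ ≤ m → m < n → a m + Real.exp (-(p / 16 * a m)) ≤ a n := by
    intro m n hm hmn
    exact (hn₁ m hm).trans (hmono.monotone hmn)
  -- the choice
  have hch : ∀ n : ℕ, ∃ (S : Set ℝ) (F : ℝ → ℝ) (M : ℂ), MeasurableSet S ∧ (∀ t, 0 ≤ F t) ∧ Continuous F ∧
      (∀ t ∈ S, F t ≤ C * Real.exp (2 * k ^ 2 * Real.log (a n) + 2 * B * √(Real.log (a n)))) ∧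
      (∀ t ∈ S, 0 < σ * Zr t ∧ 0 < Xz t ∧ |Real.log (Xz t) - k * Real.log (a n)| ≤ √(Real.log (a n)) + W) ∧
      (A₀ ≤ a n → EP (fun t => (F t : ℂ)) (Real.exp (p / 100 * a n)) (Real.exp (-(p / 100 * a n))) M ∧
        ‖M‖ ≤ C * Real.exp (k ^ 2 * Real.log (a n)) ∧
        ∀ c' d' : ℝ, 99 / 100 * p ≤ c' → c' < d' → d' ≤ q + p / 100 → 2 ≤ a n * (d' - c') →
          c0 * (d' - c') * Real.exp (k ^ 2 * Real.log (a n)) ≤
            ∫ y in Set.Icc c' d', S.indicator F (Real.exp (a n * y))) := by
    intro n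
    by_cases h : A₀ ≤ a n
    · obtain ⟨S, F, M, g1, g2, g3, g4, g5, g6, g7⟩ := hkey (a n) h
      exact ⟨S, F, M, g1, g2, g3.contR, g5, g6, fun _ => ⟨g3, g4, g7⟩⟩
    · exact ⟨∅, fun _ => 0, 0, MeasurableSet.empty, fun _ => le_rfl, continuous_const, fun t ht => ht.elim,
        fun t ht => ht.elim, fun h' => absurd h' h⟩
  choose S F M mS F0 cF FS SS hA using hch
  refine ⟨S, mS, SS, fun c d hpc hcd hdq => ?_⟩
  have hc : 0 < c := lt_of_lt_of_le hp hpc
  have hdc : 0 < d - c := by linarith
  -- the factors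
  obtain ⟨n₀, hn₀⟩ := eventually_atTop.mp (hba.eventually (Metric.ball_mem_nhds (0:ℝ) hθ))
  obtain ⟨X1, hX1⟩ := eventually_atTop.mp (small_ev (14 + 9 * (d - c)) (c / 16) (d - c) (by positivity) hdc)
  obtain ⟨X2, hX2⟩ := eventually_atTop.mp (small_ev (2 + (d - c)) (c / 2) (d - c) (by positivity) hdc)
  refine ⟨max (a n₁ + 1) (max 1 (max A₀ (max (a n₀ + 1) (max X1 (max X2 (2 / (d - c))))))),
    fun A hAA s hs hsne hcard => ?_⟩
  have k0 : a n₁ + 1 ≤ A := (le_max_left _ _).trans hAA
  have hAA := (le_max_right _ _).trans hAA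
  have k1 : 1 ≤ A := (le_max_left _ _).trans hAA
  have hAA := (le_max_right _ _).trans hAA
  have k2 : A₀ ≤ A := (le_max_left _ _).trans hAA
  have hAA := (le_max_right _ _).trans hAA
  have k3 : a n₀ + 1 ≤ A := (le_max_left _ _).trans hAA
  have hAA := (le_max_right _ _).trans hAA
  have k4 : X1 ≤ A := (le_max_left _ _).trans hAA
  have hAA := (le_max_right _ _).trans hAA
  have k5 : X2 ≤ A := (le_max_left _ _).trans hAA
  have k6 : 2 / (d - c) ≤ A := (le_max_right _ _).trans hAA
  have hge : ∀ n ∈ s, n₁ ≤ n := by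
    intro n hn
    by_contra hlt
    push Not at hlt
    have := hmono hlt
    linarith [(hs n hn).1]
  -- good indices
  have hgood : ∀ n ∈ s, |Real.log (b n)| ≤ p / 100 * a n := by
    intro n hn
    have h1 : n₀ ≤ n := by
      by_contra hlt
      push Not at hlt
      have := hmono hlt
      linarith [(hs n hn).1]
    have h2 := hn₀ n h1
    rw [Real.dist_eq, sub_zero, abs_div, abs_of_pos (by linarith [ha1 n] : 0 < a n),
      div_lt_iff₀ (by linarith [ha1 n])] at h2
    exact h2.le
  have hEPs : ∀ n ∈ s, EP (fun t => ((F n (b n * t) : ℝ) : ℂ)) (Real.exp (p / 100 * a n))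
      (b n * Real.exp (-(p / 100 * a n))) (M n) := by
    intro n hn
    exact ((hA n (k2.trans (hs n hn).1)).1).scale (hb n)
  have hγs : ∀ n ∈ s, Real.exp (-(p / 50 * a n)) ≤ b n * Real.exp (-(p / 100 * a n)) := by
    intro n hn
    have h1 := hgood n hn
    rw [abs_le] at h1
    calc Real.exp (-(p / 50 * a n)) = Real.exp (-(p / 100 * a n)) * Real.exp (-(p / 100 * a n)) := by
          rw [← Real.exp_add]; congr 1; ring
      _ ≤ b n * Real.exp (-(p / 100 * a n)) := by
          refine mul_le_mul_of_nonneg_right ?_ (Real.exp_pos _).le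
          rw [← Real.log_le_log_iff (Real.exp_pos _) (hb n), Real.log_exp]
          exact h1.1
  have hBs : ∀ n, Real.exp (p / 100 * a n) ≤ Real.exp (p / 50 * a n) := by
    intro n
    apply Real.exp_le_exp.mpr
    have := ha1 n
    nlinarith
  have hMs : ∀ n ∈ s, ‖M n‖ ≤ C * Real.exp (k ^ 2 * Real.log (a n)) := fun n hn =>
    (hA n (k2.trans (hs n hn).1)).2.1
  -- the functions
  set w : ℕ → ℝ := fun n => Real.exp (-(k ^ 2 * Real.log (a n))) with hw
  have w0 : ∀ n, 0 < w n := fun n => Real.exp_pos _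
  have w1 : ∀ n, w n ≤ 1 := by
    intro n
    simp only [hw]
    rw [Real.exp_le_one_iff]
    have : 0 ≤ k ^ 2 * Real.log (a n) := mul_nonneg (sq_nonneg k) (Real.log_nonneg (ha1 n))
    linarith
  have wM : ∀ n ∈ s, w n * ‖M n‖ ≤ C := by
    intro n hn
    have := mul_le_mul_of_nonneg_left (hMs n hn) (w0 n).le
    have e1 : w n * (C * Real.exp (k ^ 2 * Real.log (a n))) = C := by
      simp only [hw]
      rw [mul_left_comm, ← Real.exp_add, neg_add_cancel, Real.exp_zero, mul_one]
    linarith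
  set K : ℕ → ℝ → ℝ := fun n y => w n * F n (b n * Real.exp (a n * y)) with hK
  set Z : ℕ → ℝ → ℝ := fun n y => w n * (S n).indicator (F n) (b n * Real.exp (a n * y)) with hZ
  have ce : ∀ n, Continuous fun y : ℝ => b n * Real.exp (a n * y) := fun n => by fun_prop
  have ind_le : ∀ n t, (S n).indicator (F n) t ≤ F n t := fun n t => by
    by_cases h : t ∈ S n
    · rw [Set.indicator_of_mem h]
    · rw [Set.indicator_of_notMem h]; exact F0 n t
  have ind_nn : ∀ n t, 0 ≤ (S n).indicator (F n) t := fun n t => Set.indicator_nonneg (fun t _ => F0 n t) t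
  have hA0 : 0 < A := by linarith
  have hL2A : 0 ≤ Real.log (2 * A) := Real.log_nonneg (by linarith)
  have hZD : ∀ n ∈ s, ∀ y, Z n y ≤ C * Real.exp (k ^ 2 * Real.log (2 * A) + 2 * B * √(Real.log (2 * A))) := by
    intro n hn y
    simp only [hZ]
    have hLn : 0 ≤ Real.log (a n) := Real.log_nonneg (ha1 n)
    have hLn2 : Real.log (a n) ≤ Real.log (2 * A) := Real.log_le_log (by linarith [ha1 n]) (hs n hn).2
    have h1 : (S n).indicator (F n) (b n * Real.exp (a n * y)) ≤
        C * Real.exp (2 * k ^ 2 * Real.log (a n) + 2 * B * √(Real.log (a n))) := by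
      by_cases h : b n * Real.exp (a n * y) ∈ S n
      · rw [Set.indicator_of_mem h]; exact FS n _ h
      · rw [Set.indicator_of_notMem h]; positivity
    calc w n * (S n).indicator (F n) (b n * Real.exp (a n * y)) ≤
          w n * (C * Real.exp (2 * k ^ 2 * Real.log (a n) + 2 * B * √(Real.log (a n)))) :=
          mul_le_mul_of_nonneg_left h1 (w0 n).le
      _ = C * Real.exp (k ^ 2 * Real.log (a n) + 2 * B * √(Real.log (a n))) := by
          simp only [hw]
          rw [mul_left_comm, ← Real.exp_add]; congr 2; ring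
      _ ≤ _ := by
          refine mul_le_mul_of_nonneg_left (Real.exp_le_exp.mpr ?_) hC.le
          have h2 := mul_le_mul_of_nonneg_left hLn2 (sq_nonneg k)
          have h3 := mul_le_mul_of_nonneg_left (Real.sqrt_le_sqrt hLn2) (by positivity : 0 ≤ 2 * B)
          linarith
  have key2 := second_moment s (Z := Z) (K := K) (c0 := c0) (C := (C + 1) ^ 2)
    (D := C * Real.exp (k ^ 2 * Real.log (2 * A) + 2 * B * √(Real.log (2 * A)))) hcd hc0 (by positivity) hsne
    (fun n => by
      simp only [hZ]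
      exact (((cF n).measurable.indicator (mS n)).comp (ce n).measurable).const_mul _)
    (fun n => by simp only [hK]; exact ((cF n).comp (ce n)).const_mul (w n))
    (fun n y => mul_nonneg (w0 n).le (ind_nn n _))
    (fun n y => mul_le_mul_of_nonneg_left (ind_le n _) (w0 n).le)
    (fun n hn => ?_) (fun i hi j hj hij => ?_) (fun n hn y => ?_) (fun n hn => ?_) hcard (by positivity)
  · refine key2.trans (measureReal_mono ?_ ?_)
    · rintro y ⟨hy1, hy2⟩
      refine ⟨hy1, ?_⟩
      have hy3 : c0 / 2 * (s.card : ℝ) ≤ ∑ n ∈ s, Z n y := hy2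
      show c0 / 2 / C * (s.card : ℝ) ≤ _
      set E := Real.exp (k ^ 2 * Real.log (2 * A) + 2 * B * √(Real.log (2 * A))) with hE
      have h4 : ∑ n ∈ s, Z n y ≤ ∑ n ∈ s, C * (E * (S n).indicator (fun _ => (1:ℝ)) (b n * Real.exp (a n * y))) := by
        refine Finset.sum_le_sum fun n hn => ?_
        by_cases h : b n * Real.exp (a n * y) ∈ S n
        · rw [Set.indicator_of_mem h, mul_one]
          exact hZD n hn y
        · have : Z n y = 0 := by
            simp only [hZ]
            rw [Set.indicator_of_notMem h, mul_zero]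
          rw [this, Set.indicator_of_notMem h, mul_zero, mul_zero]
      rw [← Finset.mul_sum, ← Finset.mul_sum] at h4
      have h5 := hy3.trans h4
      calc c0 / 2 / C * (s.card : ℝ) = (c0 / 2 * (s.card : ℝ)) / C := by ring
        _ ≤ (C * (E * ∑ n ∈ s, (S n).indicator (fun _ => (1:ℝ)) (b n * Real.exp (a n * y)))) / C :=
            div_le_div_of_nonneg_right h5 hC.le
        _ = _ := mul_div_cancel_left₀ _ hC.ne'
    · exact ne_top_of_le_ne_top (by rw [Real.volume_Icc]; exact ENNReal.ofReal_ne_top)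
        (measure_mono Set.inter_subset_left)
  · -- lower bound
    have han : 0 < a n := by linarith [ha1 n]
    have h1 := hgood n hn
    have hβ : |Real.log (b n) / a n| ≤ p / 100 := by
      rw [abs_div, abs_of_pos han, div_le_iff₀ han]; exact h1
    rw [abs_le] at hβ
    have h2 := (hA n (k2.trans (hs n hn).1)).2.2 (c + Real.log (b n) / a n) (d + Real.log (b n) / a n)
      (by linarith [hβ.1]) (by linarith) (by linarith [hβ.2]) (by
        have : 2 ≤ A * (d - c) := by rwa [div_le_iff₀ hdc] at k6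
        have h3 := mul_le_mul_of_nonneg_right (hs n hn).1 hdc.le
        have e1 : d + Real.log (b n) / a n - (c + Real.log (b n) / a n) = d - c := by ring
        rw [e1]; linarith)
    rw [← shift_int (H := (S n).indicator (F n)) han (hb n)] at h2
    have e1 : d + Real.log (b n) / a n - (c + Real.log (b n) / a n) = d - c := by ring
    rw [e1] at h2
    simp only [hZ]
    rw [integral_const_mul]
    have h3 := mul_le_mul_of_nonneg_left h2 (w0 n).le
    refine le_trans (le_of_eq ?_) h3
    simp only [hw]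
    have : Real.exp (-(k ^ 2 * Real.log (a n))) * Real.exp (k ^ 2 * Real.log (a n)) = 1 := by
      rw [← Real.exp_add, neg_add_cancel, Real.exp_zero]
    calc c0 * (d - c) = c0 * (d - c) * (Real.exp (-(k ^ 2 * Real.log (a n))) * Real.exp (k ^ 2 * Real.log (a n))) := by
          rw [this, mul_one]
      _ = _ := by ring
  · -- correlations
    have main : ∀ i ∈ s, ∀ j ∈ s, j < i → ∫ y in Set.Icc c d, K i y * K j y ≤ (C + 1) ^ 2 * (d - c) := by
      intro i hi j hj hij
      have h1 := corr2 (hEPs i hi) (hEPs j hj) (a := a i) (b := a j) (θ := p / 50) hc hcd.le (by linarith) (Real.exp_pos _) (ha1 j)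
        (hgap2 j i (hge j hj) hij) (by linarith [(hs i hi).2, (hs j hj).1]) (by linarith) (by positivity) (hγs i hi) (hγs j hj)
        (hBs i) (hBs j)
      have h2' := hX1 (a j) (k4.trans (hs j hj).1)
      have haj : 0 ≤ a j := by linarith [ha1 j]
      have h2 : (2 * C2 c d (Real.exp (-(p / 16 * a j))) + 2 + (d - c)) * a j * Real.exp (-(c / 8 * a j)) ≤ d - c := by
        refine le_trans ?_ h2'
        have g1 := C2_bd (c := c) (d := d) hcd.le haj (by positivity : 0 ≤ p / 16)
        have g2 : (2 * C2 c d (Real.exp (-(p / 16 * a j))) + 2 + (d - c)) * a j * Real.exp (-(c / 8 * a j)) ≤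
            ((14 + 9 * (d - c)) * Real.exp (p / 16 * a j)) * a j * Real.exp (-(c / 8 * a j)) :=
          mul_le_mul_of_nonneg_right (mul_le_mul_of_nonneg_right g1 haj) (Real.exp_pos _).le
        have g3 : ((14 + 9 * (d - c)) * Real.exp (p / 16 * a j)) * a j * Real.exp (-(c / 8 * a j)) =
            (14 + 9 * (d - c)) * a j * Real.exp (p / 16 * a j + -(c / 8 * a j)) := by
          rw [Real.exp_add]; ring
        have g4 : Real.exp (p / 16 * a j + -(c / 8 * a j)) ≤ Real.exp (-(c / 16 * a j)) := by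
          apply Real.exp_le_exp.mpr
          have := mul_le_mul_of_nonneg_right hpc haj
          linarith
        rw [g3] at g2
        exact g2.trans (mul_le_mul_of_nonneg_left g4 (by positivity))
      have e1 : ∫ y in Set.Icc c d, K i y * K j y = w i * w j *
          ∫ y in Set.Icc c d, F i (b i * Real.exp (a i * y)) * F j (b j * Real.exp (a j * y)) := by
        rw [← integral_const_mul]
        refine integral_congr_ae (Eventually.of_forall fun y => ?_)
        simp only [hK]; ring
      rw [e1]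
      have h3 : w i * w j * ((d - c) * (‖M i‖ * ‖M j‖) + (d - c)) ≤ (C + 1) ^ 2 * (d - c) := by
        have h4 : (w i * ‖M i‖) * (w j * ‖M j‖) ≤ C * C :=
          mul_le_mul (wM i hi) (wM j hj) (mul_nonneg (w0 j).le (norm_nonneg _)) hC.le
        have h5 : w i * w j ≤ 1 := by
          calc w i * w j ≤ 1 * 1 := mul_le_mul (w1 i) (w1 j) (w0 j).le zero_le_one
            _ = 1 := one_mul 1
        calc w i * w j * ((d - c) * (‖M i‖ * ‖M j‖) + (d - c)) =
              (d - c) * ((w i * ‖M i‖) * (w j * ‖M j‖)) + (d - c) * (w i * w j) := by ring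
          _ ≤ (d - c) * (C * C) + (d - c) * 1 :=
              add_le_add (mul_le_mul_of_nonneg_left h4 hdc.le) (mul_le_mul_of_nonneg_left h5 hdc.le)
          _ = (C * C + 1) * (d - c) := by ring
          _ ≤ (C + 1) ^ 2 * (d - c) := by
              refine mul_le_mul_of_nonneg_right ?_ hdc.le
              nlinarith
      refine le_trans (mul_le_mul_of_nonneg_left ?_ (mul_nonneg (w0 i).le (w0 j).le)) h3
      exact h1.trans (by linarith)
    rcases lt_or_gt_of_ne hij with h | h
    · have := main j hj i hi h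
      refine le_trans (le_of_eq ?_) this
      refine integral_congr_ae (Eventually.of_forall fun y => ?_)
      simp only; ring
    · exact main i hi j hj h
  · exact hZD n hn y
  · -- mean of the majorant
    have h1 := corr1 (hEPs n hn) (a := a n) (θ := p / 50) hcd.le (ha1 n) (hγs n hn)
    have e1 : ∫ y in Set.Icc c d, K n y = w n * ∫ y in Set.Icc c d, F n (b n * Real.exp (a n * y)) := by
      rw [← integral_const_mul]
    rw [e1]
    have h2 := hX2 (a n) (k5.trans (hs n hn).1)
    have h3 : Real.exp (p / 100 * a n) * ((2 + (d - c)) * Real.exp (-((c - p / 50) * a n))) ≤ d - c := by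
      refine le_trans ?_ h2
      have e2 : Real.exp (p / 100 * a n) * ((2 + (d - c)) * Real.exp (-((c - p / 50) * a n))) =
          (2 + (d - c)) * 1 * Real.exp (p / 100 * a n - (c - p / 50) * a n) := by
        rw [mul_left_comm, ← Real.exp_add]; ring_nf
      rw [e2]
      have h4 : Real.exp (p / 100 * a n - (c - p / 50) * a n) ≤ Real.exp (-(c / 2 * a n)) := by
        apply Real.exp_le_exp.mpr
        have h5 : p * a n ≤ c * a n := mul_le_mul_of_nonneg_right hpc (by linarith [ha1 n])
        have h6 : 0 ≤ p * a n := mul_nonneg hp.le (by linarith [ha1 n])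
        nlinarith
      have h7 : (2 + (d - c)) * 1 ≤ (2 + (d - c)) * a n := mul_le_mul_of_nonneg_left (ha1 n) (by linarith)
      exact mul_le_mul h7 h4 (Real.exp_pos _).le (by have := ha1 n; positivity)
    have h4 : w n * ((d - c) * ‖M n‖ + (d - c)) ≤ (C + 1) ^ 2 * (d - c) := by
      have h5 := wM n hn
      have h6 := w1 n
      calc w n * ((d - c) * ‖M n‖ + (d - c)) = (d - c) * (w n * ‖M n‖) + (d - c) * w n := by ring
        _ ≤ (d - c) * C + (d - c) * 1 :=
            add_le_add (mul_le_mul_of_nonneg_left h5 hdc.le) (mul_le_mul_of_nonneg_left h6 hdc.le)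
        _ = (C + 1) * (d - c) := by ring
        _ ≤ _ := by
            refine mul_le_mul_of_nonneg_right ?_ hdc.le
            nlinarith
    refine le_trans (mul_le_mul_of_nonneg_left ?_ (w0 n).le) h4
    exact h1.trans (by linarith)

end Pool.Agent.Helper932Y
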