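import Mathlib

/-!
If a series diverges then some dyadic blocks are large.
-/

set_option autoImplicit false

open Filter Topology

namespace Pool.Agent.Helper932Y

lemma exp_sqrt_ev (C : ℝ) {G ρ ρ' : ℝ} (hG : 0 < G) (hρ : ρ < ρ') : ∀ᶠ A : ℝ in atTop,
    C * Real.exp (ρ * Real.log (2 * A) + G * √(Real.log (2 * A))) ≤ A ^ ρ' := by
  have h1 : ∀ᶠ x : ℝ in atTop, ρ * x + G * √x + (|Real.log (|C| + 1)| + |ρ'|) ≤ ρ' * x := by
    have h2 : ∀ᶠ x : ℝ in atTop, G * √x ≤ (ρ' - ρ) / 2 * x := by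
      filter_upwards [eventually_ge_atTop ((2 * G / (ρ' - ρ)) ^ 2), eventually_ge_atTop (0:ℝ)] with x hx hx0
      have hd : 0 < ρ' - ρ := by linarith
      have h3 : 2 * G / (ρ' - ρ) ≤ √x := Real.le_sqrt_of_sq_le hx
      rw [div_le_iff₀ hd] at h3
      have h4 : x = √x * √x := (Real.mul_self_sqrt hx0).symm
      nlinarith [Real.sqrt_nonneg x]
    filter_upwards [h2, eventually_ge_atTop ((|Real.log (|C| + 1)| + |ρ'|) / ((ρ' - ρ) / 2))] with x hx1 hx2
    have hd : 0 < (ρ' - ρ) / 2 := by linarith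
    rw [div_le_iff₀ hd] at hx2
    linarith
  have h5 : Tendsto (fun A : ℝ => Real.log (2 * A)) atTop atTop :=
    Real.tendsto_log_atTop.comp (tendsto_id.const_mul_atTop (by norm_num))
  filter_upwards [h5.eventually h1, eventually_gt_atTop (0:ℝ)] with A hA hA0
  have hl2 : Real.log (2 * A) = Real.log 2 + Real.log A := Real.log_mul (by norm_num) hA0.ne'
  have hC1 : 0 < |C| + 1 := by positivity
  calc C * Real.exp (ρ * Real.log (2 * A) + G * √(Real.log (2 * A))) ≤
        (|C| + 1) * Real.exp (ρ * Real.log (2 * A) + G * √(Real.log (2 * A))) :=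
        mul_le_mul_of_nonneg_right (by linarith [le_abs_self C]) (Real.exp_pos _).le
    _ = Real.exp (Real.log (|C| + 1) + (ρ * Real.log (2 * A) + G * √(Real.log (2 * A)))) := by
        rw [Real.exp_add (Real.log (|C| + 1)), Real.exp_log hC1]
    _ ≤ Real.exp (ρ' * Real.log A) := by
        apply Real.exp_le_exp.mpr
        have a1 := le_abs_self (Real.log (|C| + 1))
        have a2 : ρ' * Real.log 2 ≤ |ρ'| := by
          have b1 := le_abs_self ρ'
          have b2 : 0 < Real.log 2 := Real.log_pos (by norm_num)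
          have b3 : Real.log 2 < 1 := by linarith [Real.log_two_lt_d9]
          have b4 := abs_nonneg ρ'
          nlinarith
        have e1 : ρ' * Real.log (2 * A) = ρ' * Real.log 2 + ρ' * Real.log A := by rw [hl2]; ring
        linarith
    _ = A ^ ρ' := by rw [Real.rpow_def_of_pos hA0, mul_comm]

lemma count_big {a : ℕ → ℝ} {s ρ' : ℝ} (ha1 : ∀ n, 1 ≤ a n) (hat : Tendsto a atTop atTop)
    (hns : ¬ Summable fun n => a n ^ (-s)) (hs0 : 0 ≤ s) (hρ2 : ρ' < s) (A₁ : ℝ) :
    ∃ A : ℝ, A₁ ≤ A ∧ ∃ u : Finset ℕ, (∀ n ∈ u, A ≤ a n ∧ a n ≤ 2 * A) ∧ A ^ ρ' ≤ u.card := by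
  by_contra hcon
  push Not at hcon
  apply hns
  set A₂ : ℝ := max 1 A₁ with hA₂
  have hA21 : 1 ≤ A₂ := le_max_left _ _
  have hA20 : 0 < A₂ := by linarith
  have hcard : ∀ A : ℝ, A₂ ≤ A → ∀ u : Finset ℕ, (∀ n ∈ u, A ≤ a n ∧ a n ≤ 2 * A) → (u.card : ℝ) ≤ A ^ ρ' := by
    intro A hA u hu
    exact (hcon A ((le_max_right _ _).trans hA) u hu).le
  -- shift the sequence
  obtain ⟨N, hN⟩ := eventually_atTop.mp (hat.eventually_ge_atTop A₂)
  rw [← summable_nat_add_iff N]
  have haN : ∀ n, A₂ ≤ a (n + N) := fun n => hN _ (by omega)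
  have hl0 : 0 < Real.log 2 := Real.log_pos (by norm_num)
  set r : ℝ := 2 ^ (ρ' - s) with hr
  have hr0 : 0 < r := by positivity
  have hr1 : r < 1 := Real.rpow_lt_one_of_one_lt_of_neg (by norm_num) (by linarith)
  refine summable_of_sum_le (c := (1 - r)⁻¹) (fun n => Real.rpow_nonneg (by linarith [ha1 (n + N)]) _) fun u => ?_
  set j : ℕ → ℕ := fun n => ⌊Real.log (a (n + N) / A₂) / Real.log 2⌋₊ with hj
  have epow : ∀ m : ℕ, (2:ℝ) ^ m = Real.exp (m * Real.log 2) := by
    intro m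
    rw [mul_comm, ← Real.rpow_def_of_pos (by norm_num), Real.rpow_natCast]
  have hj1 : ∀ n, A₂ * 2 ^ (j n) ≤ a (n + N) ∧ a (n + N) ≤ 2 * (A₂ * 2 ^ (j n)) := by
    intro n
    have hx0 : 0 ≤ Real.log (a (n + N) / A₂) := Real.log_nonneg (by rw [one_le_div hA20]; exact haN n)
    have hf1 : (j n : ℝ) ≤ Real.log (a (n + N) / A₂) / Real.log 2 := Nat.floor_le (by positivity)
    have hf2 : Real.log (a (n + N) / A₂) / Real.log 2 < j n + 1 := Nat.lt_floor_add_one _
    rw [le_div_iff₀ hl0] at hf1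
    rw [div_lt_iff₀ hl0] at hf2
    have hpos : 0 < a (n + N) / A₂ := by
      have := haN n
      have : 0 < a (n + N) := by linarith
      positivity
    have g1 : (2:ℝ) ^ (j n) ≤ a (n + N) / A₂ := by
      rw [epow, ← Real.exp_log hpos]; exact Real.exp_le_exp.mpr hf1
    have g2 : a (n + N) / A₂ ≤ 2 ^ (j n + 1) := by
      rw [epow, ← Real.exp_log hpos]
      refine Real.exp_le_exp.mpr ?_
      push_cast
      exact hf2.le
    rw [le_div_iff₀ hA20] at g1
    rw [div_le_iff₀ hA20] at g2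
    rw [pow_succ] at g2
    constructor <;> linarith
  set J : ℕ := u.sup j + 1 with hJ
  have hmaps : ∀ n ∈ u, j n ∈ Finset.range J := fun n hn => by
    rw [Finset.mem_range, hJ, Nat.lt_succ_iff]
    exact Finset.le_sup hn
  rw [← Finset.sum_fiberwise_of_maps_to hmaps]
  have hfib : ∀ i ∈ Finset.range J, ∑ n ∈ u.filter (fun n => j n = i), a (n + N) ^ (-s) ≤ r ^ i := by
    intro i _
    set A : ℝ := A₂ * 2 ^ i with hA
    have hp1 : (1:ℝ) ≤ 2 ^ i := one_le_pow₀ (by norm_num)
    have hAA : A₂ ≤ A := le_mul_of_one_le_right hA20.le hp1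
    have hA0 : 0 < A := by linarith
    have h1 : ∀ n ∈ u.filter (fun n => j n = i), a (n + N) ^ (-s) ≤ A ^ (-s) := by
      intro n hn
      have h2 := (Finset.mem_filter.mp hn).2
      have h3 := (hj1 n).1
      rw [h2] at h3
      exact Real.rpow_le_rpow_of_nonpos hA0 h3 (by linarith)
    have h2 : ((u.filter (fun n => j n = i)).card : ℝ) ≤ A ^ ρ' := by
      have h3 := hcard A hAA ((u.filter (fun n => j n = i)).map (addRightEmbedding N)) (by
        intro m hm
        rw [Finset.mem_map] at hm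
        obtain ⟨n, hn, rfl⟩ := hm
        have h4 := hj1 n
        rw [(Finset.mem_filter.mp hn).2] at h4
        exact h4)
      rwa [Finset.card_map] at h3
    calc ∑ n ∈ u.filter (fun n => j n = i), a (n + N) ^ (-s) ≤
          ∑ _n ∈ u.filter (fun n => j n = i), A ^ (-s) := Finset.sum_le_sum h1
      _ = ((u.filter (fun n => j n = i)).card : ℝ) * A ^ (-s) := by rw [Finset.sum_const, nsmul_eq_mul]
      _ ≤ A ^ ρ' * A ^ (-s) := mul_le_mul_of_nonneg_right h2 (Real.rpow_nonneg hA0.le _)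
      _ = A ^ (ρ' - s) := by rw [← Real.rpow_add hA0]; congr 1
      _ = A₂ ^ (ρ' - s) * r ^ i := by
          rw [hA, Real.mul_rpow hA20.le (by positivity), hr, ← Real.rpow_natCast, ← Real.rpow_natCast,
            ← Real.rpow_mul (by norm_num), ← Real.rpow_mul (by norm_num)]
          congr 2; ring
      _ ≤ 1 * r ^ i := by
          refine mul_le_mul_of_nonneg_right ?_ (by positivity)
          exact Real.rpow_le_one_of_one_le_of_nonpos hA21 (by linarith)
      _ = r ^ i := one_mul _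
  calc ∑ i ∈ Finset.range J, ∑ n ∈ u.filter (fun n => j n = i), a (n + N) ^ (-s) ≤
        ∑ i ∈ Finset.range J, r ^ i := Finset.sum_le_sum hfib
    _ ≤ ∑' i : ℕ, r ^ i := (summable_geometric_of_lt_one hr0.le hr1).sum_le_tsum _ (fun i _ => by positivity)
    _ = _ := tsum_geometric_of_lt_one hr0.le hr1

end Pool.Agent.Helper932Y
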