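import Pool.Agent.Helper932Y.Block
import Pool.Agent.Helper932Y.Count

/-!
The divergence part, for almost all `y`.
-/

set_option autoImplicit false

namespace Pool.Agent.Helper932Y

open Filter Topology MeasureTheory
open Pool.Agent.TH806 Pool.Agent.TH806.LS
open Pool.Agent.Helper932Z (full_density limsup_low)

/-- the number of the indices at which the level is attained -/
noncomputable def TT (a b : ℕ → ℝ) (S : ℕ → Set ℝ) (N : ℕ) (y : ℝ) : ℝ :=
  ∑ n ∈ Finset.range (N + 1), if a N ≤ 2 * a n then (S n).indicator (fun _ => (1:ℝ)) (b n * Real.exp (a n * y)) else 0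

lemma TT_meas {a b : ℕ → ℝ} {S : ℕ → Set ℝ} (mS : ∀ n, MeasurableSet (S n)) (N : ℕ) : Measurable (TT a b S N) := by
  unfold TT
  refine Finset.measurable_fun_sum _ fun n _ => ?_
  by_cases h : a N ≤ 2 * a n
  · simp only [h, if_true]
    exact (measurable_const.indicator (mS n)).comp (by fun_prop)
  · simp only [h, if_false]
    exact measurable_const

/-- one level, one sign, one interval -/
lemma level {a b : ℕ → ℝ} {p q s : ℝ} (ha1 : ∀ n, 1 ≤ a n) (hmono : StrictMono a) (hat : Tendsto a atTop atTop)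
    (hgap : ∀ η : ℝ, 0 < η → ∀ᶠ n in atTop, a n + Real.exp (-(η * a n)) ≤ a (n + 1)) (hb : ∀ n, 0 < b n)
    (hba : Tendsto (fun n => Real.log (b n) / a n) atTop (𝓝 0)) (hp : 0 < p) (hpq : p < q)
    (hq : q ≤ 21 / 20 * p) (hns : ¬ Summable fun n => a n ^ (-(s ^ 2))) {σ : ℝ}
    (hσ : σ = 1 ∨ σ = -1) {k r : ℝ} (hr : 0 ≤ r) (hk : k ^ 2 + r < s ^ 2) :
    ∃ (W : ℝ) (S : ℕ → Set ℝ), (∀ n, ∀ t ∈ S n, 0 < σ * Zr t ∧ 0 < Xz t ∧
        |Real.log (Xz t) - k * Real.log (a n)| ≤ √(Real.log (a n)) + W) ∧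
      ∀ᵐ y : ℝ, y ∈ Set.Ioo p q → ∃ᶠ N in atTop, a N ^ r ≤ TT a b S N y := by
  obtain ⟨κ, C, W, c₂, hκ, hC, hW, hc₂, hbl⟩ := block (B := |k| + 1) (by linarith [abs_nonneg k]) ha1 hmono hgap hb hba
    hp hpq hq
  obtain ⟨S, mS, hS, hbl⟩ := hbl σ hσ k (by linarith)
  refine ⟨W, S, hS, ?_⟩
  set B : ℝ := |k| + 1 with hB
  have hB0 : 0 < B := by positivity
  set GN : ℕ → Set ℝ := fun N => {y | a N ^ r ≤ TT a b S N y} with hGN
  have mGN : ∀ N, MeasurableSet (GN N) := fun N => measurableSet_le measurable_const (TT_meas mS N)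
  set G : Set ℝ := {y | ∃ᶠ N in atTop, y ∈ GN N} with hG
  have mG : MeasurableSet G := by
    have : G = ⋂ N : ℕ, ⋃ n ≥ N, GN n := by
      ext y
      simp [hG, frequently_atTop]
    rw [this]
    exact MeasurableSet.iInter fun N => MeasurableSet.iUnion fun n => MeasurableSet.iUnion fun _ => mGN n
  set ρ : ℝ := (k ^ 2 + r + s ^ 2) / 2 with hρ
  have hρ1 : k ^ 2 + r < ρ := by rw [hρ]; linarith
  have hρ2 : ρ < s ^ 2 := by rw [hρ]; linarith
  have hB2 : 0 < 2 * B := by positivity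
  obtain ⟨X1, hX1⟩ := eventually_atTop.mp (exp_sqrt_ev C hB2 (show k ^ 2 < ρ by linarith))
  obtain ⟨X2, hX2⟩ := eventually_atTop.mp (exp_sqrt_ev (1 / c₂) hB2 hρ1)
  refine full_density (p := p) (q := q) hκ (η := 1) one_pos mG (fun c d hc hcd hd _ => ?_)
  refine limsup_low (S := GN) mGN fun N₀ => ?_
  obtain ⟨A₁, hA⟩ := hbl c d hc hcd hd
  obtain ⟨A, hA1, u, hu, hcard⟩ := count_big ha1 hat hns (sq_nonneg s) hρ2 (max 1 (max A₁ (max (a N₀ + 1) (max X1 X2))))
  have a1 : 1 ≤ A := (le_max_left _ _).trans hA1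
  have hA1 := (le_max_right _ _).trans hA1
  have a2 : A₁ ≤ A := (le_max_left _ _).trans hA1
  have hA1 := (le_max_right _ _).trans hA1
  have a3 : a N₀ + 1 ≤ A := (le_max_left _ _).trans hA1
  have hA1 := (le_max_right _ _).trans hA1
  have a4 : X1 ≤ A := (le_max_left _ _).trans hA1
  have a5 : X2 ≤ A := (le_max_right _ _).trans hA1
  have hA0 : 0 < A := by linarith
  have hAρ : 0 < A ^ ρ := Real.rpow_pos_of_pos hA0 _
  have hune : u.Nonempty := by
    rw [← Finset.card_pos]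
    have : (0:ℝ) < u.card := lt_of_lt_of_le hAρ hcard
    exact_mod_cast this
  refine (hA A a2 u hu hune ((hX1 A a4).trans hcard)).trans (measureReal_mono ?_ ?_)
  · rintro y ⟨hy, hyn⟩
    refine ⟨hy, ?_⟩
    have hyn : c₂ * (u.card : ℝ) ≤ Real.exp (k ^ 2 * Real.log (2 * A) + 2 * B * √(Real.log (2 * A))) *
            ∑ n ∈ u, (S n).indicator (fun _ => (1:ℝ)) (b n * Real.exp (a n * y)) := hyn
    set N := u.max' hune with hN
    have hNu : N ∈ u := u.max'_mem hune
    have hle : ∀ n ∈ u, n ≤ N := fun n hn => u.le_max' n hn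
    have hNN : N₀ ≤ N := by
      by_contra hlt
      push Not at hlt
      have h1 := hmono hlt
      linarith [(hu N hNu).1]
    simp only [Set.mem_iUnion]
    refine ⟨N, hNN, ?_⟩
    show a N ^ r ≤ TT a b S N y
    have h1 : ∑ n ∈ u, (S n).indicator (fun _ => (1:ℝ)) (b n * Real.exp (a n * y)) ≤ TT a b S N y := by
      have h2 : ∑ n ∈ u, (S n).indicator (fun _ => (1:ℝ)) (b n * Real.exp (a n * y)) =
          ∑ n ∈ u, if a N ≤ 2 * a n then (S n).indicator (fun _ => (1:ℝ)) (b n * Real.exp (a n * y)) else 0 := by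
        refine Finset.sum_congr rfl fun n hn => ?_
        rw [if_pos (by linarith [(hu n hn).1, (hu N hNu).2])]
      rw [h2]
      unfold TT
      refine Finset.sum_le_sum_of_subset_of_nonneg (fun n hn => ?_) fun n _ _ => ?_
      · rw [Finset.mem_range]
        have := hle n hn
        omega
      · split_ifs
        · exact Set.indicator_nonneg (fun _ _ => zero_le_one) _
        · exact le_rfl
    refine le_trans ?_ h1
    set E := Real.exp (k ^ 2 * Real.log (2 * A) + 2 * B * √(Real.log (2 * A))) with hE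
    have hE0 : 0 < E := Real.exp_pos _
    have h3 : a N ^ r ≤ (2 * A) ^ r := Real.rpow_le_rpow (by linarith [ha1 N]) (hu N hNu).2 hr
    have h4 : (2 * A) ^ r * E ≤ c₂ * A ^ ρ := by
      have h5 := hX2 A a5
      have e1 : Real.exp ((k ^ 2 + r) * Real.log (2 * A) + 2 * B * √(Real.log (2 * A))) = (2 * A) ^ r * E := by
        rw [Real.rpow_def_of_pos (by linarith), hE, ← Real.exp_add]
        congr 1; ring
      rw [e1, one_div, inv_mul_le_iff₀ hc₂] at h5
      exact h5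
    have h6 : (2 * A) ^ r * E ≤ E * ∑ n ∈ u, (S n).indicator (fun _ => (1:ℝ)) (b n * Real.exp (a n * y)) :=
      (h4.trans (mul_le_mul_of_nonneg_left hcard hc₂.le)).trans hyn
    rw [mul_comm E] at h6
    exact h3.trans (le_of_mul_le_mul_right h6 hE0)
  · exact ne_top_of_le_ne_top (by rw [Real.volume_Icc]; exact ENNReal.ofReal_ne_top)
      (measure_mono Set.inter_subset_left)

/-- the exponent -/
noncomputable def phi (s β : ℝ) : ℝ := if |β| ≤ 2 * s then s ^ 2 + β ^ 2 / 4 else s * |β|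

lemma phi_opt {s β ε : ℝ} (hs : 0 < s) (hε : 0 < ε) :
    ∃ k r : ℚ, 0 ≤ (r:ℝ) ∧ (k:ℝ) ^ 2 + r < s ^ 2 ∧ phi s β - ε ≤ r + k * β := by
  obtain ⟨k0, hk0, hV⟩ : ∃ k0 : ℝ, k0 ∈ Set.Icc (-s) s ∧ s ^ 2 - k0 ^ 2 + k0 * β = phi s β := by
    unfold phi
    by_cases h : |β| ≤ 2 * s
    · rw [if_pos h]
      rw [abs_le] at h
      exact ⟨β / 2, ⟨by linarith [h.1], by linarith [h.2]⟩, by ring⟩
    · rw [if_neg h]
      rcases le_total 0 β with hβ | hβ
      · exact ⟨s, ⟨by linarith, le_rfl⟩, by rw [abs_of_nonneg hβ]; ring⟩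
      · exact ⟨-s, ⟨le_rfl, by linarith⟩, by rw [abs_of_nonpos hβ]; ring⟩
  have hcl : k0 ∈ closure (Set.Ioo (-s) s) := by
    rw [closure_Ioo (by linarith)]; exact hk0
  have hcont : Continuous fun k : ℝ => s ^ 2 - k ^ 2 + k * β := by fun_prop
  set o : Set ℝ := {k | phi s β - ε / 2 < s ^ 2 - k ^ 2 + k * β} with ho
  have ho1 : IsOpen o := isOpen_lt continuous_const hcont
  have ho2 : k0 ∈ o := by
    show phi s β - ε / 2 < s ^ 2 - k0 ^ 2 + k0 * β
    rw [hV]; linarith
  have hne := mem_closure_iff.mp hcl o ho1 ho2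
  obtain ⟨k, hk⟩ := Rat.denseRange_cast.exists_mem_open (ho1.inter isOpen_Ioo) hne
  obtain ⟨hk1, hk2⟩ := hk
  have hk1 : phi s β - ε / 2 < s ^ 2 - (k:ℝ) ^ 2 + k * β := hk1
  have hk3 : (k:ℝ) ^ 2 < s ^ 2 := by
    rw [Set.mem_Ioo] at hk2
    nlinarith [hk2.1, hk2.2]
  obtain ⟨r, hr1, hr2⟩ := exists_rat_btwn (show max 0 (s ^ 2 - (k:ℝ) ^ 2 - ε / 2) < s ^ 2 - (k:ℝ) ^ 2 from
    max_lt (by linarith) (by linarith))
  refine ⟨k, r, (lt_of_le_of_lt (le_max_left _ _) hr1).le, by linarith, ?_⟩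
  have := lt_of_le_of_lt (le_max_right _ _) hr1
  linarith

/-- the sum of the powers at the heights of one sign -/
noncomputable def MZ (a b : ℕ → ℝ) (σ β : ℝ) (N : ℕ) (y : ℝ) : ℝ :=
  ∑ n ∈ Finset.range (N + 1), if 0 < σ * Zr (b n * Real.exp (a n * y)) then Xz (b n * Real.exp (a n * y)) ^ β else 0

theorem low_y {a b : ℕ → ℝ} {s : ℝ} (ha1 : ∀ n, 1 ≤ a n) (hmono : StrictMono a) (hat : Tendsto a atTop atTop)
    (hgap : ∀ η : ℝ, 0 < η → ∀ᶠ n in atTop, a n + Real.exp (-(η * a n)) ≤ a (n + 1)) (hb : ∀ n, 0 < b n)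
    (hba : Tendsto (fun n => Real.log (b n) / a n) atTop (𝓝 0)) (hs0 : 0 < s)
    (hns : ¬ Summable fun n => a n ^ (-(s ^ 2))) :
    ∀ᵐ y : ℝ, 0 < y → ∀ σ : ℝ, (σ = 1 ∨ σ = -1) → ∀ β : ℝ, ∀ ε : ℝ, 0 < ε →
      ∃ᶠ N in atTop, a N ^ (phi s β - ε) ≤ MZ a b σ β N y := by
  have hall : ∀ p k r : ℚ, ∀ σ : Bool, ∀ᵐ y : ℝ, 0 < (p:ℝ) → 0 ≤ (r:ℝ) → (k:ℝ) ^ 2 + r < s ^ 2 →
      y ∈ Set.Ioo (p:ℝ) (21 / 20 * p) → ∃ (W : ℝ) (S : ℕ → Set ℝ),
        (∀ n, ∀ t ∈ S n, 0 < (if σ then (1:ℝ) else -1) * Zr t ∧ 0 < Xz t ∧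
          |Real.log (Xz t) - k * Real.log (a n)| ≤ √(Real.log (a n)) + W) ∧
        ∃ᶠ N in atTop, a N ^ (r:ℝ) ≤ TT a b S N y := by
    intro p k r σ
    by_cases hp : 0 < (p:ℝ)
    · by_cases hr : 0 ≤ (r:ℝ)
      · by_cases hk : (k:ℝ) ^ 2 + r < s ^ 2
        · obtain ⟨W, S, hS, hW⟩ := level (p := p) (q := 21 / 20 * p) (σ := if σ then (1:ℝ) else -1) ha1 hmono hat hgap
            hb hba hp (by linarith) le_rfl hns (by cases σ <;> simp) hr hk
          filter_upwards [hW] with y hy _ _ _ hyI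
          exact ⟨W, S, hS, hy hyI⟩
        · exact Eventually.of_forall fun y _ _ h => absurd h hk
      · exact Eventually.of_forall fun y _ h => absurd h hr
    · exact Eventually.of_forall fun y h => absurd h hp
  filter_upwards [ae_all_iff.mpr fun p => ae_all_iff.mpr fun k => ae_all_iff.mpr fun r => ae_all_iff.mpr (hall p k r)]
    with y hy hy0 σ hσ β ε hε
  obtain ⟨p, hp1, hp2⟩ := exists_rat_btwn (show 20 / 21 * y < y by linarith)
  have hp0 : 0 < (p:ℝ) := lt_trans (by positivity) hp1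
  obtain ⟨k, r, hr0, hkr, hopt⟩ := phi_opt (β := β) hs0 (half_pos hε)
  obtain ⟨W, S, hS, hfr⟩ := hy p k r (decide (σ = 1)) hp0 hr0 hkr ⟨hp2, by linarith⟩
  have eσ : (if decide (σ = 1) then (1:ℝ) else -1) = σ := by
    rcases hσ with rfl | rfl
    · simp
    · norm_num
  rw [eσ] at hS
  have hlog : Tendsto (fun n => Real.log (a n)) atTop atTop := Real.tendsto_log_atTop.comp hat
  have hev : ∀ᶠ n in atTop, |β| * √(Real.log (a n)) + (|β| * |W| + |β * k|) ≤ ε / 2 * Real.log (a n) := by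
    have h1 : ∀ᶠ x : ℝ in atTop, |β| * √x + (|β| * |W| + |β * k|) ≤ ε / 2 * x := by
      filter_upwards [eventually_ge_atTop ((4 * |β| / ε) ^ 2), eventually_ge_atTop (4 * (|β| * |W| + |β * k|) / ε),
        eventually_ge_atTop (0:ℝ)] with x h1 h2 h3
      have h4 : 4 * |β| / ε ≤ √x := Real.le_sqrt_of_sq_le h1
      rw [div_le_iff₀ hε] at h4 h2
      have h5 : x = √x * √x := (Real.mul_self_sqrt h3).symm
      nlinarith [Real.sqrt_nonneg x]
    exact hlog.eventually h1
  refine (hfr.and_eventually hev).mono fun N hN => ?_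
  obtain ⟨h1, h4⟩ := hN
  have haN0 : 0 < a N := by linarith [ha1 N]
  have hLN : 0 ≤ Real.log (a N) := Real.log_nonneg (ha1 N)
  have hl20 : 0 < Real.log 2 := Real.log_pos (by norm_num)
  have hl21 : Real.log 2 < 1 := by linarith [Real.log_two_lt_d9]
  have hterm : a N ^ (k * β - ε / 2) * TT a b S N y ≤ MZ a b σ β N y := by
    unfold TT MZ
    rw [Finset.mul_sum]
    refine Finset.sum_le_sum fun n hn => ?_
    have hXn : 0 ≤ (if 0 < σ * Zr (b n * Real.exp (a n * y)) then Xz (b n * Real.exp (a n * y)) ^ β else 0) := by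
      split_ifs
      · exact Real.rpow_nonneg (Xz_nonneg _) _
      · exact le_rfl
    by_cases hc : a N ≤ 2 * a n
    · rw [if_pos hc]
      by_cases ht : b n * Real.exp (a n * y) ∈ S n
      · rw [Set.indicator_of_mem ht, mul_one]
        obtain ⟨g1, g2, g3⟩ := hS n _ ht
        rw [if_pos g1, Real.rpow_def_of_pos haN0, Real.rpow_def_of_pos g2]
        apply Real.exp_le_exp.mpr
        have han : a n ≤ a N := hmono.monotone (by rw [Finset.mem_range] at hn; omega)
        have han0 : 0 < a n := by linarith [ha1 n]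
        have l1 : Real.log (a n) ≤ Real.log (a N) := Real.log_le_log han0 han
        have l2 : Real.log (a N) ≤ Real.log 2 + Real.log (a n) := by
          rw [← Real.log_mul (by norm_num) han0.ne']
          exact Real.log_le_log haN0 hc
        have l3 : √(Real.log (a n)) ≤ √(Real.log (a N)) := Real.sqrt_le_sqrt l1
        have m1 : |(Real.log (Xz (b n * Real.exp (a n * y))) - k * Real.log (a n)) * β| ≤
            |β| * √(Real.log (a N)) + |β| * |W| := by
          rw [abs_mul, mul_comm, ← mul_add]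
          refine mul_le_mul_of_nonneg_left ?_ (abs_nonneg β)
          linarith [le_abs_self W]
        have m2 : |(k * β) * (Real.log (a n) - Real.log (a N))| ≤ |β * k| := by
          rw [abs_mul, mul_comm (k:ℝ) β]
          have : |Real.log (a n) - Real.log (a N)| ≤ 1 := by
            rw [abs_le]; constructor <;> linarith
          calc |β * k| * |Real.log (a n) - Real.log (a N)| ≤ |β * k| * 1 :=
                mul_le_mul_of_nonneg_left this (abs_nonneg _)
            _ = _ := mul_one _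
        rw [abs_le] at m1 m2
        have e1 : Real.log (Xz (b n * Real.exp (a n * y))) * β = (Real.log (Xz (b n * Real.exp (a n * y))) -
            k * Real.log (a n)) * β + (k * β) * (Real.log (a n) - Real.log (a N)) + (k * β) * Real.log (a N) := by ring
        have e2 : Real.log (a N) * (k * β - ε / 2) = (k * β) * Real.log (a N) - ε / 2 * Real.log (a N) := by ring
        linarith [m1.1, m2.1]
      · rw [Set.indicator_of_notMem ht, mul_zero]
        exact hXn
    · rw [if_neg hc, mul_zero]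
      exact hXn
  refine le_trans ?_ hterm
  calc a N ^ (phi s β - ε) ≤ a N ^ ((k * β - ε / 2) + r) :=
        Real.rpow_le_rpow_of_exponent_le (ha1 N) (by linarith)
    _ = a N ^ (k * β - ε / 2) * a N ^ (r:ℝ) := Real.rpow_add haN0 _ _
    _ ≤ _ := mul_le_mul_of_nonneg_left h1 (Real.rpow_nonneg haN0.le _)

end Pool.Agent.Helper932Y
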