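import Pool.Agent.Helper932Y.Up
import Pool.Agent.Helper932Z.Main

/-!
Sums of powers of zeta on the critical line along `b_n α ^ (a_n)`, for almost all `α`.
-/

set_option autoImplicit false

namespace Pool.Agent.Helper932Y

open Filter Topology MeasureTheory
open Pool.Agent.TH806 Pool.Agent.TH806.LS
open Pool.Agent.Helper932Z (ae_exp exp_pow)

theorem main_up {a b : ℕ → ℝ} {s : ℝ} (ha1 : ∀ n, 1 ≤ a n) (hmono : StrictMono a) (hat : Tendsto a atTop atTop)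
    (hb : ∀ n, 0 < b n) (hba : Tendsto (fun n => Real.log (b n) / a n) atTop (𝓝 0)) (hs0 : 0 < s) (hs2 : s < 2)
    (hs : Summable fun n => a n ^ (-(s ^ 2))) {β : ℝ} (hβ : 0 < β) :
    ∀ᵐ α : ℝ, 1 < α → ∃ C : ℝ, ∀ N,
      ∑ n ∈ Finset.range (N + 1), Xz (b n * α ^ a n) ^ β ≤ C * a N ^ (phi s β) := by
  apply ae_exp (p := fun α => ∃ C : ℝ, ∀ N,
      ∑ n ∈ Finset.range (N + 1), Xz (b n * α ^ a n) ^ β ≤ C * a N ^ (phi s β))
  filter_upwards [up_y ha1 hmono hat hb hba hs0 hs2 hs hβ] with y hy hy0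
  obtain ⟨C, hC⟩ := hy hy0
  refine ⟨C, fun N => ?_⟩
  simp_rw [exp_pow]
  exact hC N

theorem main_low {a b : ℕ → ℝ} {s : ℝ} (ha1 : ∀ n, 1 ≤ a n) (hmono : StrictMono a) (hat : Tendsto a atTop atTop)
    (hgap : ∀ η : ℝ, 0 < η → ∀ᶠ n in atTop, a n + Real.exp (-(η * a n)) ≤ a (n + 1)) (hb : ∀ n, 0 < b n)
    (hba : Tendsto (fun n => Real.log (b n) / a n) atTop (𝓝 0)) (hs0 : 0 < s)
    (hns : ¬ Summable fun n => a n ^ (-(s ^ 2))) :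
    ∀ᵐ α : ℝ, 1 < α → ∀ σ : ℝ, (σ = 1 ∨ σ = -1) → ∀ β : ℝ, ∀ ε : ℝ, 0 < ε →
      ∃ᶠ N in atTop, a N ^ (phi s β - ε) ≤
        ∑ n ∈ Finset.range (N + 1), if 0 < σ * Zr (b n * α ^ a n) then Xz (b n * α ^ a n) ^ β else 0 := by
  apply ae_exp (p := fun α => ∀ σ : ℝ, (σ = 1 ∨ σ = -1) → ∀ β : ℝ, ∀ ε : ℝ, 0 < ε →
      ∃ᶠ N in atTop, a N ^ (phi s β - ε) ≤
        ∑ n ∈ Finset.range (N + 1), if 0 < σ * Zr (b n * α ^ a n) then Xz (b n * α ^ a n) ^ β else 0)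
  filter_upwards [low_y ha1 hmono hat hgap hb hba hs0 hns] with y hy hy0 σ hσ β ε hε
  refine (hy hy0 σ hσ β ε hε).mono fun n hn => ?_
  unfold MZ at hn
  simp_rw [exp_pow]
  exact hn

end Pool.Agent.Helper932Y
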