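import Pool.Agent.Helper932Y.Up
import Pool.Agent.Helper932Z.Main

/-!
Single values of zeta on the critical line along `b_n α ^ (a_n)`, for almost all `α`.
-/

set_option autoImplicit false

namespace Pool.Agent.Helper932Y

open Filter Topology MeasureTheory
open Pool.Agent.TH806 Pool.Agent.TH806.LS
open Pool.Agent.Helper932Z (ae_exp exp_pow)

theorem pt_up_y {a b : ℕ → ℝ} {s : ℝ} (ha1 : ∀ n, 1 ≤ a n) (hat : Tendsto a atTop atTop)
    (hb : ∀ n, 0 < b n) (hba : Tendsto (fun n => Real.log (b n) / a n) atTop (𝓝 0)) (hs0 : 0 < s) (hs2 : s < 2)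
    (hs : Summable fun n => a n ^ (-(s ^ 2))) :
    ∀ᵐ y : ℝ, 0 < y → ∀ᶠ n in atTop, Xz (b n * Real.exp (a n * y)) ≤ a n ^ s := by
  have h1 : ∀ k : ℕ, ∀ᵐ y : ℝ, y ∈ Set.Icc (1 / ((k:ℝ) + 2)) ((k:ℝ) + 2) →
      ∀ᶠ n in atTop, Xz (b n * Real.exp (a n * y)) ≤ a n ^ s := by
    intro k
    have hk : (0:ℝ) ≤ k := Nat.cast_nonneg k
    have hp : 0 < 1 / ((k:ℝ) + 2) := by positivity
    have hpq : 1 / ((k:ℝ) + 2) < (k:ℝ) + 2 := by
      rw [div_lt_iff₀ (by positivity)]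
      nlinarith
    rw [← ae_restrict_iff' measurableSet_Icc]
    filter_upwards [sum_one (β := 2 * s) ha1 hat hb hba (by linarith) (by linarith) hs hp hpq] with y hy
    have ht := hy.tendsto_atTop_zero
    filter_upwards [ht.eventually (gt_mem_nhds one_pos)] with n hn
    have ha0 : 0 < a n := by linarith [ha1 n]
    have h2 : Xz (b n * Real.exp (a n * y)) ^ (2 * s) ≤ (a n ^ s) ^ (2 * s) := by
      rw [← Real.rpow_mul ha0.le]
      have e1 : s * (2 * s) = s ^ 2 + (2 * s) ^ 2 / 4 := by ring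
      rw [e1]
      rw [Real.rpow_neg ha0.le, inv_mul_lt_iff₀ (Real.rpow_pos_of_pos ha0 _), mul_one] at hn
      exact hn.le
    exact (Real.rpow_le_rpow_iff (Xz_nonneg _) (Real.rpow_nonneg ha0.le _) (by positivity)).mp h2
  filter_upwards [ae_all_iff.mpr h1] with y hy hy0
  obtain ⟨k, hk⟩ := exists_nat_ge (max y (1 / y))
  apply hy k
  have h2 : y ≤ k := (le_max_left _ _).trans hk
  have h3 : 1 / y ≤ k := (le_max_right _ _).trans hk
  rw [Set.mem_Icc]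
  constructor
  · rw [div_le_iff₀ (by positivity)]
    rw [div_le_iff₀ hy0] at h3
    nlinarith
  · linarith

theorem pt_low_y {a b : ℕ → ℝ} {s : ℝ} (ha1 : ∀ n, 1 ≤ a n) (hmono : StrictMono a) (hat : Tendsto a atTop atTop)
    (hgap : ∀ η : ℝ, 0 < η → ∀ᶠ n in atTop, a n + Real.exp (-(η * a n)) ≤ a (n + 1)) (hb : ∀ n, 0 < b n)
    (hba : Tendsto (fun n => Real.log (b n) / a n) atTop (𝓝 0))
    (hns : ¬ Summable fun n => a n ^ (-(s ^ 2))) :
    ∀ᵐ y : ℝ, 0 < y → ∀ σ : ℝ, (σ = 1 ∨ σ = -1) → ∀ r : ℝ, |r| < s → ∀ ε : ℝ, 0 < ε →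
      ∃ᶠ n in atTop, 0 < σ * Zr (b n * Real.exp (a n * y)) ∧
        a n ^ (r - ε) ≤ Xz (b n * Real.exp (a n * y)) ∧ Xz (b n * Real.exp (a n * y)) ≤ a n ^ (r + ε) := by
  have hall : ∀ p k : ℚ, ∀ σ : Bool, ∀ᵐ y : ℝ, 0 < (p:ℝ) → (k:ℝ) ^ 2 + 0 < s ^ 2 →
      y ∈ Set.Ioo (p:ℝ) (21 / 20 * p) → ∃ (W : ℝ) (S : ℕ → Set ℝ),
        (∀ n, ∀ t ∈ S n, 0 < (if σ then (1:ℝ) else -1) * Zr t ∧ 0 < Xz t ∧
          |Real.log (Xz t) - k * Real.log (a n)| ≤ √(Real.log (a n)) + W) ∧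
        ∃ᶠ N in atTop, a N ^ (0:ℝ) ≤ TT a b S N y := by
    intro p k σ
    by_cases hp : 0 < (p:ℝ)
    · by_cases hk : (k:ℝ) ^ 2 + 0 < s ^ 2
      · obtain ⟨W, S, hS, hW⟩ := level (p := p) (q := 21 / 20 * p) (σ := if σ then (1:ℝ) else -1) ha1 hmono hat hgap
          hb hba hp (by linarith) le_rfl hns (by cases σ <;> simp) le_rfl hk
        filter_upwards [hW] with y hy _ _ hyI
        exact ⟨W, S, hS, hy hyI⟩
      · exact Eventually.of_forall fun y _ h => absurd h hk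
    · exact Eventually.of_forall fun y h => absurd h hp
  filter_upwards [ae_all_iff.mpr fun p => ae_all_iff.mpr fun k => ae_all_iff.mpr (hall p k)] with y hy hy0 σ hσ r hr ε hε
  obtain ⟨p, hp1, hp2⟩ := exists_rat_btwn (show 20 / 21 * y < y by linarith)
  have hp0 : 0 < (p:ℝ) := lt_trans (by positivity) hp1
  obtain ⟨k, hk1, hk2⟩ : ∃ k : ℚ, |(k:ℝ)| < s ∧ |(k:ℝ) - r| < ε / 2 := by
    rw [abs_lt] at hr
    obtain ⟨k, h1, h2⟩ := exists_rat_btwn (show max (-s) (r - ε / 2) < r from max_lt hr.1 (by linarith))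
    refine ⟨k, ?_, ?_⟩
    · rw [abs_lt]
      exact ⟨lt_of_le_of_lt (le_max_left _ _) h1, h2.trans hr.2⟩
    · rw [abs_lt]
      constructor
      · linarith [lt_of_le_of_lt (le_max_right (-s) (r - ε / 2)) h1]
      · linarith
  have hk3 : (k:ℝ) ^ 2 + 0 < s ^ 2 := by
    rw [add_zero, ← sq_abs (k:ℝ)]
    exact pow_lt_pow_left₀ hk1 (abs_nonneg _) (by norm_num)
  obtain ⟨W, S, hS, hfr⟩ := hy p k (decide (σ = 1)) hp0 hk3 ⟨hp2, by linarith⟩
  have eσ : (if decide (σ = 1) then (1:ℝ) else -1) = σ := by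
    rcases hσ with rfl | rfl
    · simp
    · norm_num
  rw [eσ] at hS
  have hlog : Tendsto (fun n => Real.log (a n)) atTop atTop := Real.tendsto_log_atTop.comp hat
  have hev : ∀ᶠ n in atTop, √(Real.log (a n)) + W ≤ ε / 2 * Real.log (a n) := by
    have h1 : ∀ᶠ x : ℝ in atTop, √x + W ≤ ε / 2 * x := by
      filter_upwards [eventually_ge_atTop ((4 / ε) ^ 2), eventually_ge_atTop (4 * W / ε),
        eventually_ge_atTop (0:ℝ)] with x h1 h2 h3
      have h4 : 4 / ε ≤ √x := Real.le_sqrt_of_sq_le h1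
      rw [div_le_iff₀ hε] at h4 h2
      have h5 : x = √x * √x := (Real.mul_self_sqrt h3).symm
      nlinarith [Real.sqrt_nonneg x]
    exact hlog.eventually h1
  -- infinitely many indices
  have hinf : ∃ᶠ n in atTop, b n * Real.exp (a n * y) ∈ S n := by
    rw [frequently_atTop] at hfr ⊢
    intro n₀
    obtain ⟨M, hM⟩ := eventually_atTop.mp (hat.eventually_ge_atTop (2 * a n₀ + 1))
    obtain ⟨N, hN1, hN2⟩ := hfr (max M n₀)
    rw [Real.rpow_zero] at hN2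
    have haN := hM N ((le_max_left _ _).trans hN1)
    by_contra hcon
    push Not at hcon
    have : TT a b S N y = 0 := by
      unfold TT
      refine Finset.sum_eq_zero fun n _ => ?_
      by_cases hc : a N ≤ 2 * a n
      · rw [if_pos hc]
        have hn : n₀ ≤ n := by
          by_contra hlt
          push Not at hlt
          have := hmono hlt
          linarith
        exact Set.indicator_of_notMem (hcon n hn) _
      · rw [if_neg hc]
    linarith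
  refine (hinf.and_eventually hev).mono fun n hn => ?_
  obtain ⟨hn1, h4⟩ := hn
  obtain ⟨h1, h2, h3⟩ := hS n _ hn1
  have ha0 : 0 < a n := by linarith [ha1 n]
  have hL : 0 ≤ Real.log (a n) := Real.log_nonneg (ha1 n)
  have h5 : |Real.log (Xz (b n * Real.exp (a n * y))) - r * Real.log (a n)| ≤ ε * Real.log (a n) := by
    have e1 : Real.log (Xz (b n * Real.exp (a n * y))) - r * Real.log (a n) =
        (Real.log (Xz (b n * Real.exp (a n * y))) - k * Real.log (a n)) + ((k:ℝ) - r) * Real.log (a n) := by ring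
    rw [e1]
    refine (abs_add_le _ _).trans ?_
    rw [abs_mul, abs_of_nonneg hL]
    have := mul_le_mul_of_nonneg_right hk2.le hL
    linarith
  rw [abs_le] at h5
  refine ⟨h1, ?_, ?_⟩
  · rw [Real.rpow_def_of_pos ha0, ← Real.exp_log h2]
    apply Real.exp_le_exp.mpr
    linarith [h5.1]
  · rw [Real.rpow_def_of_pos ha0]
    calc Xz (b n * Real.exp (a n * y)) = Real.exp (Real.log (Xz (b n * Real.exp (a n * y)))) := (Real.exp_log h2).symm
      _ ≤ _ := by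
        apply Real.exp_le_exp.mpr
        linarith [h5.2]

theorem pt_up {a b : ℕ → ℝ} {s : ℝ} (ha1 : ∀ n, 1 ≤ a n) (hat : Tendsto a atTop atTop)
    (hb : ∀ n, 0 < b n) (hba : Tendsto (fun n => Real.log (b n) / a n) atTop (𝓝 0)) (hs0 : 0 < s) (hs2 : s < 2)
    (hs : Summable fun n => a n ^ (-(s ^ 2))) :
    ∀ᵐ α : ℝ, 1 < α → ∀ᶠ n in atTop, Xz (b n * α ^ a n) ≤ a n ^ s := by
  apply ae_exp (p := fun α => ∀ᶠ n in atTop, Xz (b n * α ^ a n) ≤ a n ^ s)
  filter_upwards [pt_up_y ha1 hat hb hba hs0 hs2 hs] with y hy hy0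
  filter_upwards [hy hy0] with n hn
  rwa [exp_pow]

theorem pt_low {a b : ℕ → ℝ} {s : ℝ} (ha1 : ∀ n, 1 ≤ a n) (hmono : StrictMono a) (hat : Tendsto a atTop atTop)
    (hgap : ∀ η : ℝ, 0 < η → ∀ᶠ n in atTop, a n + Real.exp (-(η * a n)) ≤ a (n + 1)) (hb : ∀ n, 0 < b n)
    (hba : Tendsto (fun n => Real.log (b n) / a n) atTop (𝓝 0))
    (hns : ¬ Summable fun n => a n ^ (-(s ^ 2))) :
    ∀ᵐ α : ℝ, 1 < α → ∀ σ : ℝ, (σ = 1 ∨ σ = -1) → ∀ r : ℝ, |r| < s → ∀ ε : ℝ, 0 < ε →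
      ∃ᶠ n in atTop, 0 < σ * Zr (b n * α ^ a n) ∧
        a n ^ (r - ε) ≤ Xz (b n * α ^ a n) ∧ Xz (b n * α ^ a n) ≤ a n ^ (r + ε) := by
  apply ae_exp (p := fun α => ∀ σ : ℝ, (σ = 1 ∨ σ = -1) → ∀ r : ℝ, |r| < s → ∀ ε : ℝ, 0 < ε →
      ∃ᶠ n in atTop, 0 < σ * Zr (b n * α ^ a n) ∧
        a n ^ (r - ε) ≤ Xz (b n * α ^ a n) ∧ Xz (b n * α ^ a n) ≤ a n ^ (r + ε))
  filter_upwards [pt_low_y ha1 hmono hat hgap hb hba hns] with y hy hy0 σ hσ r hr ε hε
  refine (hy hy0 σ hσ r hr ε hε).mono fun n hn => ?_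
  rwa [exp_pow]

end Pool.Agent.Helper932Y
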