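import Pool.Agent.Helper932Z.Up
import Pool.Agent.Helper932Y.Low

/-!
The convergence part, for almost all `y`.
-/

set_option autoImplicit false

namespace Pool.Agent.Helper932Y

open Filter Topology MeasureTheory
open Pool.Agent.TH806 Pool.Agent.TH806.LS
open Pool.Agent.Helper932Z (mom chg_up)
open scoped ENNReal

/-- the moment along `b exp (a y)` -/
lemma mom_y {a b : ℕ → ℝ} (ha1 : ∀ n, 1 ≤ a n) (hat : Tendsto a atTop atTop) (hb : ∀ n, 0 < b n) (hba : Tendsto (fun n => Real.log (b n) / a n) atTop (𝓝 0)) {β : ℝ} (h0 : 0 < β)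
    (h4 : β < 4) {p q : ℝ} (hp : 0 < p) (hpq : p < q) : ∃ C : ℝ, 0 < C ∧ ∀ᶠ n in atTop,
      ∫⁻ y in Set.Icc p q, ENNReal.ofReal (Xz (b n * Real.exp (a n * y)) ^ β) ≤
        ENNReal.ofReal (C * a n ^ (β ^ 2 / 4)) := by
  obtain ⟨C, hC, H⟩ := mom h0 h4
  have hpq0 : 0 < p + q := by linarith
  have hq0 : 0 < q := by linarith
  refine ⟨C * (p + q) ^ (β ^ 2 / 4) * (2 * (q + p / 2) + 1), by positivity, ?_⟩
  obtain ⟨T₀, hT₀⟩ := eventually_atTop.mp H
  have hev1 : ∀ᶠ n in atTop, max T₀ 1 ≤ Real.exp (a n * (p / 2)) :=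
    (Real.tendsto_exp_atTop.comp (hat.atTop_mul_const (by positivity : 0 < p / 2))).eventually_ge_atTop _
  have hev2 : ∀ᶠ n in atTop, |Real.log (b n) / a n| < p / 2 := by
    have := hba.abs
    rw [abs_zero] at this
    exact this.eventually_lt_const (by positivity)
  filter_upwards [hev1, hev2] with n h1 h2
  have ha0 : 0 < a n := by linarith [ha1 n]
  set g : ℝ → ℝ≥0∞ := fun t => ENNReal.ofReal (Xz t ^ β) with hg
  set γ := Real.log (b n) / a n with hγ
  rw [abs_lt] at h2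
  have e1 : ∀ y, b n * Real.exp (a n * y) = Real.exp (a n * (y + γ)) := by
    intro y
    have : a n * (y + γ) = a n * y + Real.log (b n) := by
      rw [hγ]; field_simp
    rw [this, Real.exp_add, Real.exp_log (hb n), mul_comm]
  have e2 : ∫⁻ y in Set.Icc p q, g (b n * Real.exp (a n * y)) =
      ∫⁻ y in Set.Icc (p + γ) (q + γ), g (Real.exp (a n * y)) := by
    have h3 : MeasurePreserving (fun y : ℝ => y + γ) volume volume := measurePreserving_add_right volume γ
    have h5 := h3.setLIntegral_comp_preimage_emb (measurableEmbedding_addRight γ)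
      (fun y => g (Real.exp (a n * y))) (Set.Icc (p + γ) (q + γ))
    rw [← h5]
    simp only [Set.preimage_add_const_Icc, add_sub_cancel_right]
    exact lintegral_congr fun y => by rw [e1]
  have h6 := chg_up (g := g) (a := a n) (c := p / 2) (d := q + p)
    (B := ENNReal.ofReal (C * (a n * (p + q)) ^ (β ^ 2 / 4))) (ha1 n) (by linarith) (fun T hT1 hT2 => by
      have hT : T₀ ≤ T := ((le_max_left _ _).trans h1).trans hT1
      have hT1' : 1 ≤ T := ((le_max_right _ _).trans h1).trans hT1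
      refine (hT₀ T hT).trans ?_
      gcongr
      · exact Real.log_nonneg hT1'
      · have h7 := Real.log_le_log (by linarith) hT2
        rw [Real.log_exp] at h7
        linarith)
  calc ∫⁻ y in Set.Icc p q, g (b n * Real.exp (a n * y)) =
        ∫⁻ y in Set.Icc (p + γ) (q + γ), g (Real.exp (a n * y)) := e2
    _ ≤ ∫⁻ y in Set.Icc (p / 2) (q + p), g (Real.exp (a n * y)) := by
        apply lintegral_mono_set
        exact Set.Icc_subset_Icc (by linarith) (by linarith)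
    _ ≤ _ := h6
    _ = _ := by
        rw [← ENNReal.ofReal_mul (by positivity)]
        congr 1
        rw [Real.mul_rpow ha0.le hpq0.le]
        ring

lemma sum_one {a b : ℕ → ℝ} (ha1 : ∀ n, 1 ≤ a n) (hat : Tendsto a atTop atTop) (hb : ∀ n, 0 < b n)
    (hba : Tendsto (fun n => Real.log (b n) / a n) atTop (𝓝 0)) {s β : ℝ} (h0 : 0 < β) (h4 : β < 4)
    (hs : Summable fun n => a n ^ (-(s ^ 2))) {p q : ℝ} (hp : 0 < p) (hpq : p < q) :
    ∀ᵐ y ∂(volume.restrict (Set.Icc p q)),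
      Summable fun n => a n ^ (-(s ^ 2 + β ^ 2 / 4)) * Xz (b n * Real.exp (a n * y)) ^ β := by
  obtain ⟨C, hC, H⟩ := mom_y ha1 hat hb hba h0 h4 hp hpq
  obtain ⟨n₀, H⟩ := eventually_atTop.mp H
  set e : ℝ := s ^ 2 + β ^ 2 / 4 with he
  have hc : ∀ n, Continuous fun y : ℝ => Xz (b n * Real.exp (a n * y)) ^ β := fun n =>
    (Xz_cont.comp (by fun_prop)).rpow_const fun _ => Or.inr h0.le
  set f : ℕ → ℝ → ℝ≥0∞ := fun n y => ENNReal.ofReal (a (n + n₀) ^ (-e)) *
    ENNReal.ofReal (Xz (b (n + n₀) * Real.exp (a (n + n₀) * y)) ^ β) with hf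
  have mf : ∀ n, Measurable (f n) := fun n => ((hc (n + n₀)).measurable.ennreal_ofReal).const_mul _
  have hint : ∀ n, ∫⁻ y in Set.Icc p q, f n y ≤ ENNReal.ofReal (C * a (n + n₀) ^ (-(s ^ 2))) := by
    intro n
    have ha0 : 0 < a (n + n₀) := by linarith [ha1 (n + n₀)]
    simp only [hf]
    rw [lintegral_const_mul _ (hc (n + n₀)).measurable.ennreal_ofReal]
    refine (mul_le_mul_right (H (n + n₀) (by omega)) _).trans ?_
    rw [← ENNReal.ofReal_mul (Real.rpow_nonneg ha0.le _)]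
    apply ENNReal.ofReal_le_ofReal
    apply le_of_eq
    rw [mul_left_comm, ← Real.rpow_add ha0]
    congr 2
    rw [he]; ring
  have hsum : ∫⁻ y in Set.Icc p q, ∑' n, f n y ≠ ⊤ := by
    rw [lintegral_tsum fun n => (mf n).aemeasurable]
    have h1 : Summable fun n => C * a (n + n₀) ^ (-(s ^ 2)) :=
      ((summable_nat_add_iff n₀).mpr hs).mul_left C
    have h2 : ∑' n, ENNReal.ofReal (C * a (n + n₀) ^ (-(s ^ 2))) ≠ ⊤ := by
      rw [← ENNReal.ofReal_tsum_of_nonneg (fun n => mul_nonneg hC.le (Real.rpow_nonneg (by linarith [ha1 (n + n₀)]) _)) h1]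
      exact ENNReal.ofReal_ne_top
    exact ne_top_of_le_ne_top h2 (ENNReal.tsum_le_tsum hint)
  have hae := ae_lt_top (Measurable.tsum mf) hsum
  filter_upwards [hae] with y hy
  have h1 := ENNReal.summable_toReal hy.ne
  rw [← summable_nat_add_iff n₀]
  refine h1.congr fun n => ?_
  have ha0 : 0 < a (n + n₀) := by linarith [ha1 (n + n₀)]
  simp only [hf]
  rw [← ENNReal.ofReal_mul (Real.rpow_nonneg ha0.le _), ENNReal.toReal_ofReal
    (mul_nonneg (Real.rpow_nonneg ha0.le _) (Real.rpow_nonneg (Xz_nonneg _) _))]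

lemma det {a x : ℕ → ℝ} {e : ℝ} (ha1 : ∀ n, 1 ≤ a n) (hmono : StrictMono a) (he : 0 ≤ e) (hx : ∀ n, 0 ≤ x n)
    (h : Summable fun n => a n ^ (-e) * x n) :
    ∃ C : ℝ, 0 ≤ C ∧ ∀ N, ∑ n ∈ Finset.range (N + 1), x n ≤ C * a N ^ e := by
  have h0 : ∀ n, 0 ≤ a n ^ (-e) * x n := fun n => mul_nonneg (Real.rpow_nonneg (by linarith [ha1 n]) _) (hx n)
  refine ⟨∑' n, a n ^ (-e) * x n, tsum_nonneg h0, fun N => ?_⟩
  have haN0 : 0 < a N := by linarith [ha1 N]
  calc ∑ n ∈ Finset.range (N + 1), x n ≤ ∑ n ∈ Finset.range (N + 1), (a n ^ (-e) * x n) * a N ^ e := by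
        refine Finset.sum_le_sum fun n hn => ?_
        have han0 : 0 < a n := by linarith [ha1 n]
        have hle : a n ≤ a N := hmono.monotone (by rw [Finset.mem_range] at hn; omega)
        have h1 : 1 ≤ a n ^ (-e) * a N ^ e := by
          rw [Real.rpow_neg han0.le, inv_mul_eq_div, one_le_div (Real.rpow_pos_of_pos han0 _)]
          exact Real.rpow_le_rpow han0.le hle he
        calc x n ≤ x n * (a n ^ (-e) * a N ^ e) := le_mul_of_one_le_right (hx n) h1
          _ = _ := by ring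
    _ = (∑ n ∈ Finset.range (N + 1), a n ^ (-e) * x n) * a N ^ e := by rw [Finset.sum_mul]
    _ ≤ _ := mul_le_mul_of_nonneg_right (h.sum_le_tsum _ fun n _ => h0 n) (Real.rpow_nonneg haN0.le _)

/-- large exponents -/
lemma det2 {a x : ℕ → ℝ} {s β C : ℝ} (ha1 : ∀ n, 1 ≤ a n) (hs : 0 < s) (hβ : 2 * s ≤ β) (hC : 0 ≤ C)
    (hx : ∀ n, 0 ≤ x n) (h : ∀ N, ∑ n ∈ Finset.range (N + 1), x n ^ (2 * s) ≤ C * a N ^ (2 * s ^ 2)) :
    ∃ C' : ℝ, 0 ≤ C' ∧ ∀ N, ∑ n ∈ Finset.range (N + 1), x n ^ β ≤ C' * a N ^ (s * β) := by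
  refine ⟨(C ^ (1 / (2 * s))) ^ (β - 2 * s) * C, by positivity, fun N => ?_⟩
  have haN0 : 0 < a N := by linarith [ha1 N]
  have h1 : ∀ n ∈ Finset.range (N + 1), x n ≤ C ^ (1 / (2 * s)) * a N ^ s := by
    intro n hn
    have h2 : x n ^ (2 * s) ≤ C * a N ^ (2 * s ^ 2) :=
      (Finset.single_le_sum (f := fun n => x n ^ (2 * s)) (fun i _ => Real.rpow_nonneg (hx i) _) hn).trans (h N)
    have h3 := Real.rpow_le_rpow (Real.rpow_nonneg (hx n) _) h2 (by positivity : 0 ≤ 1 / (2 * s))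
    rw [← Real.rpow_mul (hx n), mul_one_div_cancel (by positivity), Real.rpow_one,
      Real.mul_rpow hC (Real.rpow_nonneg haN0.le _), ← Real.rpow_mul haN0.le] at h3
    have e1 : 2 * s ^ 2 * (1 / (2 * s)) = s := by field_simp
    rwa [e1] at h3
  have h0 : 0 ≤ β - 2 * s := by linarith
  calc ∑ n ∈ Finset.range (N + 1), x n ^ β ≤
        ∑ n ∈ Finset.range (N + 1), (C ^ (1 / (2 * s)) * a N ^ s) ^ (β - 2 * s) * x n ^ (2 * s) := by
        refine Finset.sum_le_sum fun n hn => ?_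
        have e2 : x n ^ β = x n ^ (β - 2 * s) * x n ^ (2 * s) := by
          rw [← Real.rpow_add_of_nonneg (hx n) h0 (by positivity)]
          congr 1; ring
        rw [e2]
        exact mul_le_mul_of_nonneg_right (Real.rpow_le_rpow (hx n) (h1 n hn) h0) (Real.rpow_nonneg (hx n) _)
    _ = (C ^ (1 / (2 * s)) * a N ^ s) ^ (β - 2 * s) * ∑ n ∈ Finset.range (N + 1), x n ^ (2 * s) := by
        rw [Finset.mul_sum]
    _ ≤ (C ^ (1 / (2 * s)) * a N ^ s) ^ (β - 2 * s) * (C * a N ^ (2 * s ^ 2)) :=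
        mul_le_mul_of_nonneg_left (h N) (Real.rpow_nonneg (by positivity) _)
    _ = (C ^ (1 / (2 * s))) ^ (β - 2 * s) * C * (a N ^ (s * (β - 2 * s)) * a N ^ (2 * s ^ 2)) := by
        rw [Real.mul_rpow (by positivity) (by positivity), ← Real.rpow_mul haN0.le]
        ring
    _ = _ := by
        rw [← Real.rpow_add haN0]
        congr 2
        ring

theorem up_y {a b : ℕ → ℝ} {s : ℝ} (ha1 : ∀ n, 1 ≤ a n) (hmono : StrictMono a) (hat : Tendsto a atTop atTop)
    (hb : ∀ n, 0 < b n) (hba : Tendsto (fun n => Real.log (b n) / a n) atTop (𝓝 0)) (hs0 : 0 < s) (hs2 : s < 2)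
    (hs : Summable fun n => a n ^ (-(s ^ 2))) {β : ℝ} (hβ : 0 < β) :
    ∀ᵐ y : ℝ, 0 < y → ∃ C : ℝ, ∀ N,
      ∑ n ∈ Finset.range (N + 1), Xz (b n * Real.exp (a n * y)) ^ β ≤ C * a N ^ (phi s β) := by
  have h1 : ∀ k : ℕ, ∀ᵐ y : ℝ, y ∈ Set.Icc (1 / ((k:ℝ) + 2)) ((k:ℝ) + 2) → ∃ C : ℝ, ∀ N,
      ∑ n ∈ Finset.range (N + 1), Xz (b n * Real.exp (a n * y)) ^ β ≤ C * a N ^ (phi s β) := by
    intro k
    have hk : (0:ℝ) ≤ k := Nat.cast_nonneg k
    have hp : 0 < 1 / ((k:ℝ) + 2) := by positivity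
    have hpq : 1 / ((k:ℝ) + 2) < (k:ℝ) + 2 := by
      rw [div_lt_iff₀ (by positivity)]
      nlinarith
    rw [← ae_restrict_iff' measurableSet_Icc]
    unfold phi
    rw [abs_of_pos hβ]
    by_cases h2 : β ≤ 2 * s
    · rw [if_pos h2]
      filter_upwards [sum_one ha1 hat hb hba hβ (by linarith) hs hp hpq] with y hy
      obtain ⟨C, -, hC⟩ := det ha1 hmono (by positivity) (fun n => Real.rpow_nonneg (Xz_nonneg _) _) hy
      exact ⟨C, hC⟩
    · rw [if_neg h2]
      push Not at h2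
      filter_upwards [sum_one (β := 2 * s) ha1 hat hb hba (by linarith) (by linarith) hs hp hpq] with y hy
      have e1 : s ^ 2 + (2 * s) ^ 2 / 4 = 2 * s ^ 2 := by ring
      rw [e1] at hy
      obtain ⟨C, hC0, hC⟩ := det ha1 hmono (by positivity) (fun n => Real.rpow_nonneg (Xz_nonneg _) _) hy
      obtain ⟨C', -, hC'⟩ := det2 ha1 hs0 h2.le hC0 (fun n => Xz_nonneg (b n * Real.exp (a n * y))) hC
      exact ⟨C', hC'⟩
  filter_upwards [ae_all_iff.mpr h1] with y hy hy0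
  obtain ⟨k, hk⟩ := exists_nat_ge (max y (1 / y))
  apply hy k
  have h2 : y ≤ k := (le_max_left _ _).trans hk
  have h3 : 1 / y ≤ k := (le_max_right _ _).trans hk
  rw [Set.mem_Icc]
  constructor
  · rw [div_le_iff₀ (by positivity)]
    rw [div_le_iff₀ hy0] at h3
    nlinarith
  · linarith

end Pool.Agent.Helper932Y
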